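import Pool.Agent.Y744.ANC.Anch

/-! The abstract theorem for anchored windows along a filter. -/

open MeasureTheory Filter Topology Real

namespace Pool.Agent.Y744.UNC

open Pool.Agent.Y744 Pool.Agent.Y744.ANC

theorem rigid_anch {A : ℝ → ℝ → ℝ} {T0 C0 κ : ℝ} (hκ : 0 < κ)
    (hmono : ∀ T, T0 ≤ T → Monotone (A T))
    (hneg : ∀ T y, y < 0 → A T y = 0) (hb : ∀ T, T0 ≤ T → ∀ y, |A T y| ≤ C0 * (1 + y ^ 2))
    (hdiag : ∀ ε, 0 < ε → ∀ᶠ T in atTop, 1 - ε ≤ A T 0)
    (hmont : ∀ K, TK κ K → ∀ h, 0 < h →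
      Tendsto (fun T => ∫ y, A T y * (ct K (y + h) - ct K (y - h))) atTop
        (𝓝 (∫ y, AG y * (ct K (y + h) - ct K (y - h)))))
    {l : Filter ℝ} (hl : l ≤ atTop) {s C c a0 : ℝ} (hs : s = 1 ∨ s = -1)
    (hC : 0 ≤ C) (hc : 0 < c) (ha0 : 0 < a0)
    (hyp : ∀ a, a0 ≤ a → ∀ ε, 0 < ε → ∀ᶠ T in l,
      -(C * Real.exp (-(c * a))) - ε ≤ s * (A T a - AG a)) :
    ∀ x, Tendsto (fun T => A T x) l (𝓝 (AG x)) := by
  intro x
  rw [tendsto_iff_ultrafilter]
  intro g hg
  have hgt : (g : Filter ℝ) ≤ atTop := hg.trans hl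
  have hT : ∀ᶠ T in (g : Filter ℝ), T0 ≤ T := hgt (eventually_ge_atTop _)
  have hex : ∀ y, ∃ L, Tendsto (fun T => A T y) (g : Filter ℝ) (𝓝 L) := by
    intro y
    have h1 : ((g.map fun T => A T y : Ultrafilter ℝ) : Filter ℝ) ≤
        𝓟 (Set.Icc (-(C0 * (1 + y ^ 2))) (C0 * (1 + y ^ 2))) := by
      rw [le_principal_iff]
      have h2 : ∀ᶠ T in (g : Filter ℝ), A T y ∈
          Set.Icc (-(C0 * (1 + y ^ 2))) (C0 * (1 + y ^ 2)) := by
        filter_upwards [hT] with T hT1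
        exact abs_le.1 (hb T hT1 y)
      exact h2
    obtain ⟨L, _, hL⟩ := isCompact_Icc.ultrafilter_le_nhds _ h1
    exact ⟨L, hL⟩
  choose A' hlim using hex
  have hA' : Monotone A' := by
    intro a b hab
    refine le_of_tendsto_of_tendsto (hlim a) (hlim b) ?_
    filter_upwards [hT] with T hT1 using hmono T hT1 hab
  have hneg' : ∀ y, y < 0 → A' y = 0 := by
    intro y hy
    refine tendsto_nhds_unique (hlim y) ?_
    have : (fun T => A T y) = fun _ => 0 := funext fun T => hneg T y hy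
    rw [this]
    exact tendsto_const_nhds
  have hb' : ∀ y, |A' y| ≤ C0 * (1 + y ^ 2) := by
    intro y
    refine le_of_tendsto (hlim y).abs ?_
    filter_upwards [hT] with T hT1 using hb T hT1 y
  have h0 : 1 ≤ A' 0 := by
    refine le_of_forall_pos_le_add fun ε hε => ?_
    have h1 : ∀ᶠ T in (g : Filter ℝ), 1 - ε ≤ A T 0 := hgt (hdiag ε hε)
    have := ge_of_tendsto (hlim 0) h1
    linarith
  have hm : ∀ K, TK κ K → ∀ h, 0 < h →
      ∫ y, A' y * (ct K (y + h) - ct K (y - h)) = ∫ y, AG y * (ct K (y + h) - ct K (y - h)) := by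
    intro K hK h hh
    obtain ⟨D, hD⟩ := test_decay hK h
    refine lim_int hmono hb ?_ hD (hmont K hK h hh) hgt hA' hlim
    exact (hK.ct_cont.measurable.comp (by fun_prop)).sub (hK.ct_cont.measurable.comp (by fun_prop))
  have c1 : ∀ a, a0 ≤ a → -(C * Real.exp (-(c * a))) ≤ s * (A' a - AG a) := by
    intro a ha
    refine le_of_forall_pos_le_add fun ε hε => ?_
    have h1 : Tendsto (fun T => s * (A T a - AG a)) (g : Filter ℝ) (𝓝 (s * (A' a - AG a))) :=
      ((hlim a).sub_const _).const_mul _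
    have h2 := ge_of_tendsto h1 (hg (hyp a ha ε hε))
    linarith
  have p1 := anchored hκ hA' hneg' hb' hm hs hC hc ha0 c1
  have := limit_anchored hA' hneg' hb' h0 p1 x
  rw [← this]
  exact hlim x

end Pool.Agent.Y744.UNC
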