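import Pool.Agent.Y744.PCR.Avg

/-! Sums over pairs of points of a finite set. -/

open MeasureTheory Filter Topology Real

namespace Pool.Agent.Y744.UNC

open Pool.Agent.Y744

/-- sums over pairs -/
noncomputable def QR (m : ℂ → ℝ) (φ : ℝ → ℝ) (Z : Finset ℂ) (L : ℝ) : ℝ :=
  ∑ s ∈ Z, ∑ s' ∈ Z, m s * m s' * φ ((s.im - s'.im) * L / (2 * Real.pi))

lemma QR_int {κ : ℝ} {K : ℝ → ℝ} (hK : TK κ K) {h : ℝ} (hh : 0 < h) (m : ℂ → ℝ) (Z : Finset ℂ)
    (L : ℝ) :
    ∫ y, QR m ((Set.Icc (-y) y).indicator fun _ => 1) Z L * (ct K (y + h) - ct K (y - h)) =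
      -QR m (fav K h) Z L := by
  have hw := dfav_int hK h
  have e1 : ∀ y, QR m ((Set.Icc (-y) y).indicator fun _ => 1) Z L *
      (ct K (y + h) - ct K (y - h)) =
      ∑ s ∈ Z, ∑ s' ∈ Z, m s * m s' *
        (Set.Ici |(s.im - s'.im) * L / (2 * Real.pi)|).indicator
          (fun y => ct K (y + h) - ct K (y - h)) y := by
    intro y
    unfold QR
    rw [Finset.sum_mul]
    refine Finset.sum_congr rfl fun s _ => ?_
    rw [Finset.sum_mul]
    refine Finset.sum_congr rfl fun s' _ => ?_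
    rw [mul_assoc]
    congr 1
    by_cases hx : |(s.im - s'.im) * L / (2 * Real.pi)| ≤ y
    · rw [Set.indicator_of_mem (s := Set.Icc (-y) y) (abs_le.1 hx),
        Set.indicator_of_mem (show y ∈ Set.Ici |(s.im - s'.im) * L / (2 * Real.pi)| from hx),
        one_mul]
    · rw [Set.indicator_of_notMem (s := Set.Icc (-y) y) (fun hc => hx (abs_le.2 hc)),
        Set.indicator_of_notMem (show y ∉ Set.Ici |(s.im - s'.im) * L / (2 * Real.pi)| from hx),
        zero_mul]
  simp_rw [e1]
  have hi : ∀ t : ℝ, Integrable ((Set.Ici t).indicator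
      (fun y => ct K (y + h) - ct K (y - h))) := fun t => hw.indicator measurableSet_Ici
  rw [integral_finsetSum _ fun s _ => integrable_finsetSum _ fun s' _ => (hi _).const_mul _]
  unfold QR
  rw [← Finset.sum_neg_distrib]
  refine Finset.sum_congr rfl fun s _ => ?_
  rw [integral_finsetSum _ fun s' _ => (hi _).const_mul _, ← Finset.sum_neg_distrib]
  refine Finset.sum_congr rfl fun s' _ => ?_
  rw [integral_const_mul, integral_indicator measurableSet_Ici, integral_Ici_eq_integral_Ioi,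
    tail_int hK hh]
  have : fav K h |(s.im - s'.im) * L / (2 * Real.pi)| =
      fav K h ((s.im - s'.im) * L / (2 * Real.pi)) := by
    rcases abs_cases ((s.im - s'.im) * L / (2 * Real.pi)) with ⟨h1, _⟩ | ⟨h1, _⟩
    · rw [h1]
    · rw [h1, fav_even]
  rw [this]
  ring

lemma QR_neg (m : ℂ → ℝ) (φ : ℝ → ℝ) (Z : Finset ℂ) (L : ℝ) :
    QR m (fun x => φ (-x)) Z L = QR m φ Z L := by
  unfold QR
  rw [Finset.sum_comm]
  refine Finset.sum_congr rfl fun s _ => Finset.sum_congr rfl fun s' _ => ?_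
  show m s' * m s * φ (-((s'.im - s.im) * L / (2 * Real.pi))) = _
  rw [mul_comm (m s'), show -((s'.im - s.im) * L / (2 * Real.pi)) =
    (s.im - s'.im) * L / (2 * Real.pi) by ring]

lemma QR_add (m : ℂ → ℝ) (φ ψ : ℝ → ℝ) (Z : Finset ℂ) (L : ℝ) :
    QR m (fun x => φ x + ψ x) Z L = QR m φ Z L + QR m ψ Z L := by
  unfold QR
  rw [← Finset.sum_add_distrib]
  refine Finset.sum_congr rfl fun s _ => ?_
  rw [← Finset.sum_add_distrib]
  refine Finset.sum_congr rfl fun s' _ => ?_
  ring

lemma QR_split {a : ℝ} (ha : 0 ≤ a) (m : ℂ → ℝ) (Z : Finset ℂ) (L : ℝ) :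
    QR m ((Set.Icc (-a) a).indicator fun _ => 1) Z L =
      2 * QR m ((Set.Ioc 0 a).indicator fun _ => 1) Z L +
        QR m (({0} : Set ℝ).indicator fun _ => 1) Z L := by
  have e1 : ((Set.Icc (-a) a).indicator fun _ => (1 : ℝ)) = fun x =>
      (((Set.Ioc 0 a).indicator (fun _ => (1 : ℝ)) x +
        (fun x => (Set.Ioc 0 a).indicator (fun _ => (1 : ℝ)) (-x)) x)) +
        (({0} : Set ℝ).indicator fun _ => (1 : ℝ)) x := by
    funext x
    show _ = (((Set.Ioc 0 a).indicator (fun _ => (1 : ℝ)) x +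
        ((Set.Ioc 0 a).indicator (fun _ => (1 : ℝ)) (-x)))) +
        (({0} : Set ℝ).indicator fun _ => (1 : ℝ)) x
    rcases lt_trichotomy x 0 with hx | hx | hx
    · rw [Set.indicator_of_notMem (s := Set.Ioc 0 a) (a := x) (fun h => by linarith [h.1]),
        Set.indicator_of_notMem (s := ({0} : Set ℝ)) (a := x)
          (fun h => by rw [Set.mem_singleton_iff] at h; linarith)]
      by_cases h : x ∈ Set.Icc (-a) a
      · rw [Set.indicator_of_mem h, Set.indicator_of_mem (s := Set.Ioc 0 a) (a := -x)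
          ⟨by linarith, by linarith [h.1]⟩]
        norm_num
      · rw [Set.indicator_of_notMem h, Set.indicator_of_notMem (s := Set.Ioc 0 a) (a := -x)
          (fun h2 => h ⟨by linarith [h2.2], by linarith⟩)]
        norm_num
    · subst hx
      rw [Set.indicator_of_mem (s := Set.Icc (-a) a) (a := (0 : ℝ)) ⟨by linarith, ha⟩,
        Set.indicator_of_notMem (s := Set.Ioc 0 a) (a := (0 : ℝ)) (fun h => by linarith [h.1]),
        Set.indicator_of_mem (s := ({0} : Set ℝ)) (a := (0 : ℝ)) rfl]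
      simp
    · rw [Set.indicator_of_notMem (s := Set.Ioc 0 a) (a := -x) (fun h => by linarith [h.1]),
        Set.indicator_of_notMem (s := ({0} : Set ℝ)) (a := x)
          (fun h => by rw [Set.mem_singleton_iff] at h; linarith)]
      by_cases h : x ∈ Set.Icc (-a) a
      · rw [Set.indicator_of_mem h, Set.indicator_of_mem (s := Set.Ioc 0 a) (a := x)
          ⟨hx, h.2⟩]
        norm_num
      · rw [Set.indicator_of_notMem h, Set.indicator_of_notMem (s := Set.Ioc 0 a) (a := x)
          (fun h2 => h ⟨by linarith, h2.2⟩)]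
        norm_num
  rw [e1, QR_add, QR_add, QR_neg]
  ring

/-- the number of pairs at distance in `(0, a]` -/
lemma QR_Ioc (m : ℂ → ℝ) (Z : Finset ℂ) {L : ℝ} (hL : 0 < L) (a : ℝ) :
    QR m ((Set.Ioc 0 a).indicator fun _ => 1) Z L =
      ∑ p ∈ (Z ×ˢ Z).filter (fun p => 0 < p.1.im - p.2.im ∧
        p.1.im - p.2.im ≤ 2 * Real.pi * a / L), m p.1 * m p.2 := by
  have hpi := Real.pi_pos
  unfold QR
  rw [Finset.sum_filter, Finset.sum_product]
  refine Finset.sum_congr rfl fun s _ => Finset.sum_congr rfl fun w _ => ?_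
  have key : (s.im - w.im) * L / (2 * Real.pi) ∈ Set.Ioc 0 a ↔
      (0 < s.im - w.im ∧ s.im - w.im ≤ 2 * Real.pi * a / L) := by
    rw [Set.mem_Ioc, div_le_iff₀ (by positivity), le_div_iff₀ hL]
    have h1 : 0 < (s.im - w.im) * L / (2 * Real.pi) ↔ 0 < s.im - w.im := by
      constructor
      · intro h
        by_contra hc
        push Not at hc
        have : (s.im - w.im) * L / (2 * Real.pi) ≤ 0 :=
          div_nonpos_of_nonpos_of_nonneg (mul_nonpos_of_nonpos_of_nonneg hc hL.le) (by positivity)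
        linarith
      · intro h
        positivity
    rw [h1, mul_comm a]
  by_cases h : (0 < s.im - w.im ∧ s.im - w.im ≤ 2 * Real.pi * a / L)
  · rw [Set.indicator_of_mem (key.2 h), if_pos h, mul_one]
  · rw [Set.indicator_of_notMem (fun hc => h (key.1 hc)), if_neg h, mul_zero]

/-- the number of pairs at distance zero -/
lemma QR_zero (m : ℂ → ℝ) (Z : Finset ℂ) {L : ℝ} (hL : 0 < L) :
    QR m (({0} : Set ℝ).indicator fun _ => 1) Z L =
      ∑ p ∈ (Z ×ˢ Z).filter (fun p => p.1.im = p.2.im), m p.1 * m p.2 := by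
  have hpi := Real.pi_pos
  unfold QR
  rw [Finset.sum_filter, Finset.sum_product]
  refine Finset.sum_congr rfl fun s _ => Finset.sum_congr rfl fun w _ => ?_
  have key : (s.im - w.im) * L / (2 * Real.pi) ∈ ({0} : Set ℝ) ↔ s.im = w.im := by
    rw [Set.mem_singleton_iff, div_eq_zero_iff, mul_eq_zero, sub_eq_zero]
    constructor
    · rintro ((h | h) | h)
      · exact h
      · linarith
      · linarith
    · intro h
      exact Or.inl (Or.inl h)
  by_cases h : s.im = w.im
  · rw [Set.indicator_of_mem (key.2 h), if_pos h, mul_one]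
  · rw [Set.indicator_of_notMem (fun hc => h (key.1 hc)), if_neg h, mul_zero]

end Pool.Agent.Y744.UNC
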