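import Pool.Agent.Y749.Rig.Tst3
import Pool.Agent.Y744.PCR.Avg

/-! The smooth test functions are admissible. -/

open MeasureTheory Filter Topology
open scoped ContDiff

namespace Pool.Agent.Y744.UNC

open Pool.Agent.Y744 Pool.Agent.Y749.Rig

variable {κ : ℝ} {K : ℝ → ℝ}

lemma fl_ct (K : ℝ → ℝ) (x : ℝ) : fl K x = ct K x := by
  unfold fl ct
  refine integral_congr_ae (Eventually.of_forall fun α => ?_)
  show K α * Real.cos (2 * Real.pi * α * x) = K α * Real.cos (2 * Real.pi * x * α)
  congr 2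
  ring

lemma FL_bound (hK : TK κ K) (x y : ℝ) :
    ‖FL K (x + y * Complex.I)‖ ≤ (∫ α, |K α|) * Real.exp (2 * Real.pi * κ * |y|) := by
  have hpi := Real.pi_pos
  unfold FL
  refine (norm_integral_le_integral_norm _).trans ?_
  rw [← integral_mul_const]
  refine integral_mono_of_nonneg (Eventually.of_forall fun _ => norm_nonneg _)
    (hK.integrable.abs.mul_const _) (Eventually.of_forall fun α => ?_)
  show ‖(K α : ℂ) * Complex.exp (2 * Real.pi * Complex.I * α * (x + y * Complex.I))‖ ≤
    |K α| * Real.exp (2 * Real.pi * κ * |y|)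
  rw [norm_mul, Complex.norm_real, Real.norm_eq_abs]
  by_cases hα : κ < |α|
  · rw [hK.supp α hα]
    simp
  · push Not at hα
    refine mul_le_mul_of_nonneg_left ?_ (abs_nonneg _)
    rw [Complex.norm_exp]
    refine Real.exp_le_exp.2 ?_
    have e : (2 * Real.pi * Complex.I * α * (x + y * Complex.I)).re = -(2 * Real.pi * (α * y)) := by
      simp [Complex.mul_re, Complex.mul_im]
      ring
    rw [e]
    have h1 : -(α * y) ≤ |α * y| := neg_le_abs _
    have h2 : |α * y| ≤ κ * |y| := by
      rw [abs_mul]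
      exact mul_le_mul_of_nonneg_right hα (abs_nonneg _)
    nlinarith

lemma FL_D (hK : TK κ K) (z : ℂ) : z ^ 2 * FL K z = FL (TK.D K) z := by
  have hpi := Real.pi_pos
  have hd1 : Differentiable ℝ K := hK.smooth.differentiable (by simp)
  have hs1 := TK.deriv_smooth hK.smooth
  have hd2 : Differentiable ℝ (deriv K) := hs1.differentiable (by simp)
  have hc1 : HasCompactSupport (deriv K) := hK.hcs.deriv
  have hc2 : HasCompactSupport (deriv (deriv K)) := hc1.deriv
  have hk1 : Continuous (deriv K) := hs1.continuous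
  have hk2 : Continuous (deriv (deriv K)) := (TK.deriv_smooth hs1).continuous
  set c : ℂ := 2 * Real.pi * Complex.I * z with hc
  have hE : ∀ α : ℝ, HasDerivAt (fun α : ℝ => Complex.exp (c * α)) (c * Complex.exp (c * α)) α := by
    intro α
    have h1 : HasDerivAt (fun α : ℝ => c * (α : ℂ)) c α := by
      simpa using (Complex.ofRealCLM.hasDerivAt (x := α)).const_mul c
    have := h1.cexp
    rw [mul_comm] at this
    exact this
  have hcE : Continuous fun α : ℝ => Complex.exp (c * α) := by fun_prop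
  have hof : ∀ {f : ℝ → ℝ} (_ : Continuous f) (_ : HasCompactSupport f) {g : ℝ → ℂ}
      (_ : Continuous g), Integrable fun α => (f α : ℂ) * g α := by
    intro f hf hfc g hg
    refine Continuous.integrable_of_hasCompactSupport ?_ ?_
    · exact (Complex.continuous_ofReal.comp hf).mul hg
    · refine HasCompactSupport.mul_right ?_
      exact hfc.comp_left (g := fun x : ℝ => (x : ℂ)) Complex.ofReal_zero
  have e1 : ∫ α : ℝ, (K α : ℂ) * (c * Complex.exp (c * α)) =
      -∫ α : ℝ, ((deriv K α : ℝ) : ℂ) * Complex.exp (c * α) := by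
    refine integral_mul_deriv_eq_deriv_mul_of_integrable (u := fun α => (K α : ℂ))
      (v := fun α : ℝ => Complex.exp (c * α)) (fun α _ => ((hd1 α).hasDerivAt.ofReal_comp))
      (fun α _ => hE α) ?_ ?_ ?_
    · exact hof hK.cont hK.hcs (continuous_const.mul hcE)
    · exact hof hk1 hc1 hcE
    · exact hof hK.cont hK.hcs hcE
  have e2 : ∫ α : ℝ, ((deriv K α : ℝ) : ℂ) * (c * Complex.exp (c * α)) =
      -∫ α : ℝ, ((deriv (deriv K) α : ℝ) : ℂ) * Complex.exp (c * α) := by
    refine integral_mul_deriv_eq_deriv_mul_of_integrable (u := fun α => ((deriv K α : ℝ) : ℂ))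
      (v := fun α : ℝ => Complex.exp (c * α)) (fun α _ => ((hd2 α).hasDerivAt.ofReal_comp))
      (fun α _ => hE α) ?_ ?_ ?_
    · exact hof hk1 hc1 (continuous_const.mul hcE)
    · exact hof hk2 hc2 hcE
    · exact hof hk1 hc1 hcE
  have e3 : c ^ 2 * FL K z = ∫ α : ℝ, ((deriv (deriv K) α : ℝ) : ℂ) * Complex.exp (c * α) := by
    have h1 : FL K z = ∫ α : ℝ, (K α : ℂ) * Complex.exp (c * α) := by
      unfold FL
      refine integral_congr_ae (Eventually.of_forall fun α => ?_)
      show (K α : ℂ) * Complex.exp (2 * Real.pi * Complex.I * α * z) =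
        (K α : ℂ) * Complex.exp (c * α)
      rw [hc]
      congr 2
      ring
    have h2 : c * ∫ α : ℝ, (K α : ℂ) * Complex.exp (c * α) =
        ∫ α : ℝ, (K α : ℂ) * (c * Complex.exp (c * α)) := by
      rw [← integral_const_mul]
      refine integral_congr_ae (Eventually.of_forall fun α => ?_)
      show c * ((K α : ℂ) * Complex.exp (c * α)) = _
      ring
    have h3 : c * ∫ α : ℝ, ((deriv K α : ℝ) : ℂ) * Complex.exp (c * α) =
        ∫ α : ℝ, ((deriv K α : ℝ) : ℂ) * (c * Complex.exp (c * α)) := by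
      rw [← integral_const_mul]
      refine integral_congr_ae (Eventually.of_forall fun α => ?_)
      show c * (((deriv K α : ℝ) : ℂ) * Complex.exp (c * α)) = _
      ring
    rw [h1, pow_two, mul_assoc, h2, e1, mul_neg, h3, e2, neg_neg]
  have e4 : FL (TK.D K) z = -(1 / (4 * Real.pi ^ 2)) *
      ∫ α : ℝ, ((deriv (deriv K) α : ℝ) : ℂ) * Complex.exp (c * α) := by
    unfold FL TK.D
    rw [← integral_const_mul]
    refine integral_congr_ae (Eventually.of_forall fun α => ?_)
    show (((-(deriv (deriv K) α) / (4 * Real.pi ^ 2) : ℝ)) : ℂ) *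
      Complex.exp (2 * Real.pi * Complex.I * α * z) =
      -(1 / (4 * Real.pi ^ 2)) * (((deriv (deriv K) α : ℝ) : ℂ) * Complex.exp (c * α))
    have e5 : 2 * Real.pi * Complex.I * α * z = c * α := by rw [hc]; ring
    rw [e5]
    push_cast
    ring
  rw [e4, ← e3, hc]
  have hpc : (Real.pi : ℂ) ≠ 0 := by exact_mod_cast hpi.ne'
  have : (2 * Real.pi * Complex.I * z) ^ 2 = -(4 * Real.pi ^ 2) * z ^ 2 := by
    rw [mul_pow, mul_pow, Complex.I_sq]
    ring
  rw [this]
  field_simp

theorem adm_TK (hK : TK κ K) {κ' : ℝ} (h : κ < κ') : Adm κ' K := by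
  refine ⟨hK.even, ?_, fun x hx => hK.supp x (h.trans_le hx), ?_⟩
  · have hs1 := TK.deriv_smooth hK.smooth
    obtain ⟨M, hM⟩ := (hK.hcs.deriv).exists_bound_of_continuous hs1.continuous
    have hd1 : Differentiable ℝ K := hK.smooth.differentiable (by simp)
    have hM0 : 0 ≤ M := (norm_nonneg _).trans (hM 0)
    refine ⟨M, fun x y => ?_⟩
    have := Convex.norm_image_sub_le_of_norm_deriv_le (f := K) (s := Set.univ) (C := M)
      (fun x _ => hd1 x) (fun x _ => hM x) convex_univ (Set.mem_univ y) (Set.mem_univ x)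
    simpa [Real.norm_eq_abs] using this
  · refine ⟨(∫ α, |K α|) + ∫ α, |TK.D K α|, fun x y => ?_⟩
    have h1 := FL_bound hK x y
    have h2 := FL_bound hK.D_TK x y
    have h3 := FL_D hK (x + y * Complex.I)
    set z : ℂ := x + y * Complex.I with hz
    have hx2 : x ^ 2 ≤ ‖z‖ ^ 2 := by
      have : |z.re| ≤ ‖z‖ := Complex.abs_re_le_norm z
      have e : z.re = x := by simp [hz]
      rw [e] at this
      rw [← sq_abs x]
      exact pow_le_pow_left₀ (abs_nonneg _) this 2
    have h4 : ‖z‖ ^ 2 * ‖FL K z‖ ≤ (∫ α, |TK.D K α|) * Real.exp (2 * Real.pi * κ * |y|) := by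
      have e : ‖z‖ ^ 2 * ‖FL K z‖ = ‖FL (TK.D K) z‖ := by
        rw [← h3, norm_mul, norm_pow]
      rw [e]
      exact h2
    rw [le_div_iff₀ (by positivity)]
    have h5 : ‖FL K z‖ * (1 + x ^ 2) ≤ ((∫ α, |K α|) + ∫ α, |TK.D K α|) *
        Real.exp (2 * Real.pi * κ * |y|) := by
      have h6 : ‖FL K z‖ * x ^ 2 ≤ ‖z‖ ^ 2 * ‖FL K z‖ := by
        rw [mul_comm]
        exact mul_le_mul_of_nonneg_right hx2 (norm_nonneg _)
      nlinarith
    refine h5.trans (mul_le_mul_of_nonneg_left (Real.exp_le_exp.2 ?_) ?_)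
    · have hpi := Real.pi_pos
      exact mul_le_mul_of_nonneg_right (mul_le_mul_of_nonneg_left h.le (by positivity))
        (abs_nonneg _)
    · exact add_nonneg (integral_nonneg fun _ => abs_nonneg _)
        (integral_nonneg fun _ => abs_nonneg _)

end Pool.Agent.Y744.UNC
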