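import Pool.Agent.Y749.Rig.Brg
import Pool.Agent.Y744.UNC.Cnt
import Pool.Agent.Y744.UNC.TKAdm
import Pool.Agent.Y744.UNC.Ab

/-! The counting functions of the zeros, without the Riemann hypothesis. -/

open MeasureTheory Filter Topology Real

namespace Pool.Agent.Y744.UNC

open Pool.Agent.Y744 Pool.Agent.Y749.Rig
open Pool.Agent.Y750.PC (nstar neq nbad SP Z0 zmult Pc NT SP_finite nstar_eq neq_eq eqn_ge nbad_le
  mass Prn Eqn)

/-- the normalised number of pairs at normalised distance at most `y` -/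
noncomputable def Ac (T y : ℝ) : ℝ := (Mp T).real (Set.Icc (-y) y)

lemma Ac_mono (T : ℝ) : Monotone (Ac T) := by
  intro a b hab
  have := Mp_fin T
  exact measureReal_mono (Set.Icc_subset_Icc (by linarith) hab)

lemma Ac_neg (T y : ℝ) (hy : y < 0) : Ac T y = 0 := by
  unfold Ac
  rw [Set.Icc_eq_empty (by linarith)]
  simp

lemma Ac_bound : ∃ C0 T0 : ℝ, 10 ≤ T0 ∧ ∀ T : ℝ, T0 ≤ T → ∀ y, |Ac T y| ≤ C0 * (1 + y ^ 2) := by
  obtain ⟨C, hC, h⟩ := Mp_bdd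
  obtain ⟨T1, h1⟩ := h.exists_forall_of_atTop
  refine ⟨4 * C, max T1 10, le_max_right _ _, fun T hT y => ?_⟩
  have hC0 : 0 ≤ C := by linarith
  rcases lt_or_ge y 0 with hy | hy
  · rw [Ac_neg T y hy, abs_zero]
    positivity
  · have h2 := (h1 T ((le_max_left _ _).trans hT)).real_le hC0 0 (b := y) _ (Nat.le_ceil _)
    rw [zero_sub, zero_add] at h2
    have h3 : ((⌈2 * y⌉₊ : ℕ) : ℝ) < 2 * y + 1 := Nat.ceil_lt_add_one (by positivity)
    have h4 : 0 ≤ Ac T y := measureReal_nonneg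
    rw [abs_of_nonneg h4]
    have h5 : Ac T y ≤ (((⌈2 * y⌉₊ : ℕ) : ℝ) + 1) * C := h2
    nlinarith [sq_nonneg (y - 1), mul_nonneg hC0 (sq_nonneg (y - 1))]

lemma QR_RR (φ : ℝ → ℝ) (T : ℝ) : QR mm φ (ZZ T) (Real.log T) = RR φ (ZZ T) (ZZ T) (Real.log T) :=
  rfl

lemma Ac_QR {T : ℝ} (hT : 10 ≤ T) (y : ℝ) : Ac T y =
    QR mm ((Set.Icc (-y) y).indicator fun _ => 1) (ZZ T) (Real.log T) / nT T := by
  unfold Ac
  rw [Mp_real hT measurableSet_Icc, QR_RR]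

lemma Ac_int {κ : ℝ} {K : ℝ → ℝ} (hK : TK κ K) {h : ℝ} (hh : 0 < h) {T : ℝ} (hT : 10 ≤ T) :
    ∫ y, Ac T y * (ct K (y + h) - ct K (y - h)) = -∫ x, fav K h x ∂(Mp T) := by
  have e1 : ∀ y, Ac T y * (ct K (y + h) - ct K (y - h)) = (nT T)⁻¹ *
      (QR mm ((Set.Icc (-y) y).indicator fun _ => 1) (ZZ T) (Real.log T) *
        (ct K (y + h) - ct K (y - h))) := by
    intro y
    rw [Ac_QR hT]
    ring
  simp_rw [e1]
  rw [integral_const_mul, QR_int hK hh, Mp_integral hT, QR_RR]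
  ring

/-- the averages are the transforms of windows -/
lemma fl_win_fav {κ : ℝ} {K : ℝ → ℝ} (hK : TK κ K) {κ' : ℝ} (hκ : κ < κ') {h : ℝ} (hh : 0 < h)
    (x : ℝ) : fl (win h K) x = fav K h x := by
  rw [fl_win (adm_TK hK hκ) hh.le]
  unfold fav
  have h1 : ∀ s, fl K (x + s) = ct K (x + s) := fun s => fl_ct K _
  simp_rw [h1]
  have h2 := intervalIntegral.integral_comp_add_left (a := -h) (b := h) (ct K) x
  rw [h2]
  congr 1

lemma gd_FF : gd =ᵐ[volume] FF := by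
  have h1 : ∀ᵐ x ∂(volume : Measure ℝ), x ≠ 0 := by simp [ae_iff]
  filter_upwards [h1] with x hx
  unfold gd FF
  rw [Real.sinc_of_ne_zero (mul_ne_zero Real.pi_ne_zero hx)]

lemma AG_cc {κ : ℝ} {K : ℝ → ℝ} (hK : TK κ K) {κ' : ℝ} (hκ : κ < κ') (hκ' : κ' ≤ 1) {h : ℝ}
    (hh : 0 < h) : ∫ y, AG y * (ct K (y + h) - ct K (y - h)) = -cc (win h K) := by
  rw [AG_int hK hh, ← gue (adm_win (adm_TK hK hκ) hh.le) hκ']
  rw [fl_win_fav hK hκ hh]
  congr 2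
  refine integral_congr_ae ?_
  filter_upwards [gd_FF] with x hx
  rw [fl_win_fav hK hκ hh, hx]

theorem mont (hoff : ∀ η : ℝ, 0 < η → ∀ᶠ T : ℝ in atTop, NF T ≤ η * (T * Real.log T)) :
    ∃ κ : ℝ, 0 < κ ∧ ∀ K, TK κ K → ∀ h, 0 < h →
      Tendsto (fun T => ∫ y, Ac T y * (ct K (y + h) - ct K (y - h))) atTop
        (𝓝 (∫ y, AG y * (ct K (y + h) - ct K (y - h)))) := by
  obtain ⟨κ, hκ, hκ2, hblk⟩ := blk_main
  refine ⟨κ / 2, by positivity, fun K hK h hh => ?_⟩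
  have hlt : κ / 2 < κ := by linarith
  have hA := adm_win (adm_TK hK hlt) hh.le
  have h1 := test_lim hA (hblk _ hA hoff)
  rw [AG_cc hK hlt (by linarith) hh]
  refine h1.neg.congr' ?_
  filter_upwards [eventually_ge_atTop 10] with T hT
  rw [Ac_int hK hh hT]
  congr 1
  refine integral_congr_ae (Eventually.of_forall fun x => ?_)
  exact fl_win_fav hK hlt hh x

/-! ### comparison of the counting functions -/

lemma LU_sub (T : ℝ) : Pool.Agent.TH801.LU.ZZ T ⊆ ZZ T := by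
  intro s hs
  rw [Pool.Agent.TH801.LU.mem_ZZ] at hs
  rw [mem_ZZ]
  exact ⟨hs.2.2.2.2, hs.1, hs.2.1, hs.2.2.1.le, hs.2.2.2.1⟩

/-- the pairs at positive distance -/
noncomputable def Fp (T a : ℝ) : ℝ := QR mm ((Set.Ioc 0 a).indicator fun _ => 1) (ZZ T) (Real.log T)

/-- the pairs at distance zero -/
noncomputable def Ep (T : ℝ) : ℝ := QR mm (({0} : Set ℝ).indicator fun _ => 1) (ZZ T) (Real.log T)

lemma Ac_split {T : ℝ} (hT : 10 ≤ T) {a : ℝ} (ha : 0 ≤ a) :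
    nT T * Ac T a = 2 * Fp T a + Ep T := by
  have hn := nT_pos hT
  rw [Ac_QR hT, mul_div_cancel₀ _ hn.ne', QR_split ha]
  rfl

lemma Ep_bd : ∃ K : ℝ, 0 ≤ K ∧ ∀ T : ℝ, 10 ≤ T → (neq T : ℝ) ≤ Ep T ∧ Ep T ≤ neq T + K := by
  classical
  refine ⟨∑ p ∈ ZZ 0 ×ˢ ZZ 0, mm p.1 * mm p.2,
    Finset.sum_nonneg fun p _ => mul_nonneg (mm_nonneg _) (mm_nonneg _), fun T hT => ?_⟩
  have hL := one_lt_log (show 3 ≤ T by linarith)
  have hL0 : 0 < Real.log T := by linarith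
  have hnn : ∀ p : ℂ × ℂ, 0 ≤ mm p.1 * mm p.2 := fun p => mul_nonneg (mm_nonneg _) (mm_nonneg _)
  have e1 : (neq T : ℝ) = ∑ p ∈ (Pool.Agent.TH801.LU.ZZ T ×ˢ Pool.Agent.TH801.LU.ZZ T).filter
      (fun p => p.1.im = p.2.im), mm p.1 * mm p.2 := by
    rw [neq_eq]
    unfold Eqn
    rw [Finset.sum_filter, Finset.sum_product]
    refine Finset.sum_congr rfl fun s _ => Finset.sum_congr rfl fun w _ => ?_
    show mm s * mm w * _ = _
    by_cases h : s.im = w.im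
    · simp [h]
    · simp [h]
  rw [e1]
  unfold Ep
  rw [QR_zero mm (ZZ T) hL0]
  constructor
  · refine Finset.sum_le_sum_of_subset_of_nonneg ?_ fun p _ _ => hnn p
    intro p hp
    rw [Finset.mem_filter, Finset.mem_product] at hp ⊢
    exact ⟨⟨LU_sub T hp.1.1, LU_sub T hp.1.2⟩, hp.2⟩
  · rw [← Finset.sum_filter_add_sum_filter_not ((ZZ T ×ˢ ZZ T).filter (fun p => p.1.im = p.2.im))
      (fun p => 0 < p.1.im)]
    apply add_le_add
    · refine Finset.sum_le_sum_of_subset_of_nonneg ?_ fun p _ _ => hnn p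
      intro p hp
      rw [Finset.mem_filter, Finset.mem_filter, Finset.mem_product, mem_ZZ, mem_ZZ] at hp
      obtain ⟨⟨⟨⟨a1, a2, a3, a4, a5⟩, ⟨b1, b2, b3, b4, b5⟩⟩, h1⟩, h2⟩ := hp
      rw [Finset.mem_filter, Finset.mem_product, Pool.Agent.TH801.LU.mem_ZZ,
        Pool.Agent.TH801.LU.mem_ZZ]
      exact ⟨⟨⟨a2, a3, h2, a5, a1⟩, ⟨b2, b3, h1 ▸ h2, b5, b1⟩⟩, h1⟩
    · refine Finset.sum_le_sum_of_subset_of_nonneg ?_ fun p _ _ => hnn p
      intro p hp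
      rw [Finset.mem_filter, Finset.mem_filter, Finset.mem_product, mem_ZZ, mem_ZZ, not_lt] at hp
      obtain ⟨⟨⟨⟨a1, a2, a3, a4, a5⟩, ⟨b1, b2, b3, b4, b5⟩⟩, h1⟩, h2⟩ := hp
      rw [Finset.mem_product, mem_ZZ, mem_ZZ]
      exact ⟨⟨a1, a2, a3, a4, h2⟩, ⟨b1, b2, b3, b4, h1 ▸ h2⟩⟩

lemma Fp_le {T : ℝ} (hT : 10 ≤ T) (a : ℝ) : Fp T a ≤ (nstar T a : ℝ) := by
  classical
  have hL := one_lt_log (show 3 ≤ T by linarith)
  have hL0 : 0 < Real.log T := by linarith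
  unfold Fp
  rw [QR_Ioc mm (ZZ T) hL0]
  have e1 : (nstar T a : ℝ) = ∑ p ∈ (SP_finite T a).toFinset, mm p.1 * mm p.2 := by
    unfold nstar
    rw [finsum_mem_eq_finite_toFinset_sum _ (SP_finite T a)]
    push_cast
    rfl
  rw [e1]
  refine Finset.sum_le_sum_of_subset_of_nonneg ?_ fun p _ _ =>
    mul_nonneg (mm_nonneg _) (mm_nonneg _)
  intro p hp
  rw [Finset.mem_filter, Finset.mem_product, mem_ZZ, mem_ZZ] at hp
  rw [Set.Finite.mem_toFinset]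
  obtain ⟨⟨⟨h1, h2, h3, h4, h5⟩, ⟨h6, h7, h8, h9, h10⟩⟩, h11, h12⟩ := hp
  exact ⟨⟨h1, h2, h3⟩, ⟨h6, h7, h8⟩, by linarith, h5, h11, h12⟩

lemma Fp_ge : ∃ K : ℝ, 0 ≤ K ∧ ∀ T a : ℝ, 10 ≤ T → 2 * Real.pi * a / Real.log T ≤ 7 →
    (nstar T a : ℝ) ≤ Fp T a + K := by
  classical
  obtain ⟨K, hK, h⟩ := nstar_eq
  refine ⟨K, hK, fun T a hT ha => (h T a ha).2.trans ?_⟩
  have hL := one_lt_log (show 3 ≤ T by linarith)
  have hL0 : 0 < Real.log T := by linarith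
  have e2 : Prn (Pool.Agent.TH801.LU.ZZ T) Pool.Agent.TH801.LU.mu (2 * Real.pi / Real.log T * a) =
      ∑ p ∈ (Pool.Agent.TH801.LU.ZZ T ×ˢ Pool.Agent.TH801.LU.ZZ T).filter
      (fun p => 0 < p.1.im - p.2.im ∧ p.1.im - p.2.im ≤ 2 * Real.pi * a / Real.log T),
        mm p.1 * mm p.2 := by
    unfold Prn
    rw [Finset.sum_filter, Finset.sum_product, show 2 * Real.pi / Real.log T * a =
      2 * Real.pi * a / Real.log T by ring]
    refine Finset.sum_congr rfl fun s _ => Finset.sum_congr rfl fun w _ => ?_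
    show mm s * mm w * _ = _
    by_cases h : 0 < s.im - w.im ∧ s.im - w.im ≤ 2 * Real.pi * a / Real.log T
    · simp only [h, and_self, if_true, mul_one]
    · simp only [h, if_false, mul_zero]
  rw [e2]
  unfold Fp
  rw [QR_Ioc mm (ZZ T) hL0]
  refine add_le_add ?_ le_rfl
  refine Finset.sum_le_sum_of_subset_of_nonneg ?_ fun p _ _ =>
    mul_nonneg (mm_nonneg _) (mm_nonneg _)
  intro p hp
  rw [Finset.mem_filter, Finset.mem_product] at hp ⊢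
  exact ⟨⟨LU_sub T hp.1.1, LU_sub T hp.1.2⟩, hp.2⟩

end Pool.Agent.Y744.UNC
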