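import Pool.Agent.Y744.UNC.Ac

/-! The criterion: one-sided bounds for large distances. -/

open MeasureTheory Filter Topology Real

namespace Pool.Agent.Y744.UNC

open Pool.Agent.Y744 Pool.Agent.Y749.Rig
open Pool.Agent.Y750.PC (nstar neq nbad SP Z0 zmult Pc NT SP_finite nstar_eq neq_eq eqn_ge nbad_le
  mass Prn Eqn nstar_mono Pc_cont Pc_le Pc_nonneg nstar_ii)

lemma Fp_zero (T : ℝ) : Fp T 0 = 0 := by
  unfold Fp QR
  simp

lemma nT_tendsto : Tendsto nT atTop atTop := by
  have h1 : Tendsto (fun T : ℝ => T * (1 / (2 * Real.pi))) atTop atTop :=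
    tendsto_id.atTop_mul_const (by positivity)
  refine tendsto_atTop_mono' atTop ?_ h1
  filter_upwards [eventually_ge_atTop 10] with T hT
  have hL := one_lt_log (show 3 ≤ T by linarith)
  unfold nT
  rw [mul_one_div]
  refine div_le_div_of_nonneg_right ?_ (by positivity)
  nlinarith

lemma const_small (K : ℝ) {ε : ℝ} (hε : 0 < ε) : ∀ᶠ T : ℝ in atTop, K / nT T ≤ ε := by
  have h1 := nT_tendsto.eventually_ge_atTop (|K| / ε)
  filter_upwards [h1, eventually_ge_atTop 10] with T h1 hT
  have hn := nT_pos hT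
  rw [div_le_iff₀ hε] at h1
  rw [div_le_iff₀ hn]
  have := le_abs_self K
  linarith

lemma neq_close {ε : ℝ} (hε : 0 < ε) : ∀ᶠ T : ℝ in atTop, |(neq T : ℝ) / nT T - Ac T 0| ≤ ε := by
  obtain ⟨K, hK, h⟩ := Ep_bd
  filter_upwards [eventually_ge_atTop 10, const_small K hε] with T hT h2
  have hn := nT_pos hT
  have h1 := Ac_split hT (a := 0) le_rfl
  rw [Fp_zero, mul_zero, zero_add] at h1
  have h3 := h T hT
  have e : (neq T : ℝ) / nT T - Ac T 0 = -((Ep T - neq T) / nT T) := by
    rw [← h1]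
    field_simp
    ring
  rw [e, abs_neg, abs_of_nonneg (div_nonneg (by linarith [h3.1]) hn.le)]
  refine le_trans ?_ h2
  exact div_le_div_of_nonneg_right (by linarith [h3.2]) hn.le

lemma nstar_close {a : ℝ} (ha : 0 ≤ a) {ε : ℝ} (hε : 0 < ε) : ∀ᶠ T : ℝ in atTop,
    |2 * ((nstar T a : ℝ) / nT T) - (Ac T a - Ac T 0)| ≤ ε := by
  obtain ⟨K, hK, h⟩ := Fp_ge
  have hlog := Real.tendsto_log_atTop.eventually_ge_atTop (2 * Real.pi * a / 7)
  filter_upwards [eventually_ge_atTop 10, const_small (2 * K) hε, hlog] with T hT h2 hl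
  have hn := nT_pos hT
  have hL := one_lt_log (show 3 ≤ T by linarith)
  have h0 := Ac_split hT (a := 0) le_rfl
  rw [Fp_zero, mul_zero, zero_add] at h0
  have h1 := Ac_split hT ha
  have h3 := Fp_le hT a
  have h4 := h T a hT (by
    rw [div_le_iff₀ (by linarith)]
    rw [div_le_iff₀ (by norm_num)] at hl
    linarith)
  have e : 2 * ((nstar T a : ℝ) / nT T) - (Ac T a - Ac T 0) =
      2 * ((nstar T a : ℝ) - Fp T a) / nT T := by
    have : Ac T a - Ac T 0 = 2 * Fp T a / nT T := by
      rw [eq_div_iff hn.ne']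
      linarith
    rw [this]
    field_simp
  rw [e, abs_of_nonneg (div_nonneg (by linarith) hn.le)]
  refine le_trans ?_ h2
  exact div_le_div_of_nonneg_right (by linarith) hn.le

lemma Ac_diag {ε : ℝ} (hε : 0 < ε) : ∀ᶠ T : ℝ in atTop, 1 - ε ≤ Ac T 0 := by
  obtain ⟨C, T0, hC, hT0, hm⟩ := mass
  obtain ⟨K, hK, hE⟩ := Ep_bd
  have hpi := Real.pi_pos
  have hlog := Real.tendsto_log_atTop.eventually_ge_atTop (2 * Real.pi * C / ε)
  filter_upwards [eventually_ge_atTop (max T0 10), hlog] with T hT hl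
  have hT10 : 10 ≤ T := (le_max_right _ _).trans hT
  have hTT0 : T0 ≤ T := (le_max_left _ _).trans hT
  have hn := nT_pos hT10
  have h0 := Ac_split hT10 (a := 0) le_rfl
  rw [Fp_zero, mul_zero, zero_add] at h0
  have h1 := (hE T hT10).1
  rw [neq_eq] at h1
  have h2 := eqn_ge T
  have h3 := hm T hTT0
  have h4 : 0 ≤ ∑ᶠ s ∈ {s : ℂ | s ∈ Pool.Agent.TH801.LU.ZZ T ∧ 1 < s.im ∧
      Pool.Agent.Y750.PC.BadZ s}, Pool.Agent.TH801.LU.mu s :=
    finsum_nonneg fun s => finsum_nonneg fun _ => Pool.Agent.TH801.LU.mu_nonneg s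
  have h5 : nT T - C * T ≤ nT T * Ac T 0 := by
    have : T * Real.log T / (2 * Real.pi) = nT T := rfl
    rw [this] at h3
    linarith
  have h6 : C * T ≤ ε * nT T := by
    unfold nT
    rw [div_le_iff₀ hε] at hl
    have e : ε * (T * Real.log T / (2 * Real.pi)) = T * (Real.log T * ε) / (2 * Real.pi) := by ring
    rw [e, le_div_iff₀ (by positivity)]
    have : T * (2 * Real.pi * C) ≤ T * (Real.log T * ε) :=
      mul_le_mul_of_nonneg_left hl (by linarith)
    linarith
  have h7 : nT T * (1 - ε) ≤ nT T * Ac T 0 := by linarith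
  exact le_of_mul_le_mul_left h7 hn

lemma nstar_meas {T : ℝ} (hT : 1 ≤ T) : Measurable fun u => (nstar T u : ℝ) := by
  have : Monotone fun u => (nstar T u : ℝ) := fun a b hab => by
    have := nstar_mono hT hab
    show (nstar T a : ℝ) ≤ (nstar T b : ℝ)
    exact_mod_cast this
  exact this.measurable

lemma int_exp_le {c C A a : ℝ} (hc : 0 < c) (hC : 0 ≤ C) (hA : 0 ≤ A) :
    ∫ u in A..a, C * Real.exp (-(c * u)) ≤ C / c := by
  have hd : ∀ u ∈ Set.uIcc A a, HasDerivAt (fun u => -(C / c) * Real.exp (-(c * u)))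
      (C * Real.exp (-(c * u))) u := by
    intro u _
    have h1 : HasDerivAt (fun u => -(c * u)) (-c) u := by
      have h := ((hasDerivAt_id u).const_mul c).neg
      rw [mul_one] at h
      exact h
    refine (h1.exp.const_mul (-(C / c))).congr_deriv ?_
    field_simp
  rw [intervalIntegral.integral_eq_sub_of_hasDerivAt hd
    ((by fun_prop : Continuous fun u => C * Real.exp (-(c * u))).intervalIntegrable _ _)]
  have h1 : Real.exp (-(c * A)) ≤ 1 := Real.exp_le_one_iff.2 (by
    have : 0 ≤ c * A := by positivity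
    linarith)
  have h2 := (Real.exp_pos (-(c * a))).le
  have h3 : 0 ≤ C / c := by positivity
  nlinarith

/-- the lower bound implies that almost all zeros are on the line -/
theorem off_of_lb {A C c : ℝ} (hA : 0 < A) (hC : 0 ≤ C) (hc : 0 < c)
    (h : ∀ a, A ≤ a → ∀ ε, 0 < ε → ∀ᶠ T : ℝ in atTop,
      Pc a - C * Real.exp (-(c * a)) - ε ≤ (nstar T a : ℝ) / nT T) :
    ∀ η : ℝ, 0 < η → ∀ᶠ T : ℝ in atTop, NF T ≤ η * (T * Real.log T) := by
  intro η hη
  obtain ⟨C1, T0, hC1, hT0, hm⟩ := Pool.Agent.Y750.PC.main 1 le_rfl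
  have hpi := Real.pi_pos
  have hpi3 := Real.pi_gt_three
  obtain ⟨M, hM⟩ : ∃ M : ℝ, M = A ^ 2 + 1 + C / c + 2 * C1 := ⟨_, rfl⟩
  have hM0 : 0 < M := by
    rw [hM]
    positivity
  obtain ⟨a, ha⟩ : ∃ a : ℝ, a = A + 4 * M / η := ⟨_, rfl⟩
  have hAa : A ≤ a := by
    rw [ha]
    have : 0 < 4 * M / η := by positivity
    linarith
  have ha0 : 0 < a := by linarith
  have haM : 4 * M / η ≤ a := by rw [ha]; linarith
  obtain ⟨K, hK⟩ : ∃ K : ℝ, K = ∑ s ∈ ZZ 0, mm s := ⟨_, rfl⟩
  have hK0 : 0 ≤ K := by rw [hK]; exact Finset.sum_nonneg fun s _ => mm_nonneg s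
  have hev : ∀ᶠ T : ℝ in atTop, T0 ≤ T ∧ a * Real.log a ≤ 1 * Real.log T ∧
      a ^ 2 ≤ Real.log T ∧ 2 * K / η ≤ T := by
    refine (eventually_ge_atTop _).and ?_
    have h1 := Real.tendsto_log_atTop.eventually_ge_atTop (a * Real.log a)
    have h2 := Real.tendsto_log_atTop.eventually_ge_atTop (a ^ 2)
    filter_upwards [h1, h2, eventually_ge_atTop (2 * K / η)] with T h1 h2 h3
    exact ⟨by linarith, h2, h3⟩
  have hgm : ∀ T : ℝ, 10 ≤ T → Measurable fun u =>
      max (Pc u - (nstar T u : ℝ) / nT T - C * Real.exp (-(c * u))) 0 := by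
    intro T hT
    have h1 := nstar_meas (T := T) (by linarith)
    have h2 : Measurable fun u => C * Real.exp (-(c * u)) :=
      (by fun_prop : Continuous fun u => C * Real.exp (-(c * u))).measurable
    exact ((Pc_cont.measurable.sub (h1.div_const _)).sub h2).max measurable_const
  have hgb : ∀ T : ℝ, 10 ≤ T → ∀ u ∈ Set.uIoc A a,
      ‖max (Pc u - (nstar T u : ℝ) / nT T - C * Real.exp (-(c * u))) 0‖ ≤ a := by
    intro T hT u hu
    rw [Set.uIoc_of_le hAa] at hu
    have hn := nT_pos hT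
    have h1 : 0 ≤ (nstar T u : ℝ) / nT T := by positivity
    have h2 : 0 ≤ C * Real.exp (-(c * u)) := by positivity
    have h3 : Pc u ≤ u := Pc_le (by linarith [hu.1])
    rw [Real.norm_eq_abs, abs_of_nonneg (le_max_right _ _)]
    exact max_le (by linarith [hu.2]) ha0.le
  have hdct : Tendsto (fun T : ℝ => ∫ u in A..a,
      max (Pc u - (nstar T u : ℝ) / nT T - C * Real.exp (-(c * u))) 0) atTop
      (𝓝 (∫ u in A..a, (0 : ℝ))) := by
    refine intervalIntegral.tendsto_integral_filter_of_dominated_convergence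
      (fun _ => a) ?_ ?_ intervalIntegrable_const ?_
    · filter_upwards [eventually_ge_atTop 10] with T hT
      exact (hgm T hT).aestronglyMeasurable
    · filter_upwards [eventually_ge_atTop 10] with T hT
      exact Filter.Eventually.of_forall fun u hu => hgb T hT u hu
    · refine Filter.Eventually.of_forall fun u hu => ?_
      rw [Set.uIoc_of_le hAa] at hu
      rw [Metric.tendsto_nhds]
      intro ε hε
      filter_upwards [h u hu.1.le (ε / 2) (by positivity)] with T hT
      rw [Real.dist_eq, sub_zero, abs_of_nonneg (le_max_right _ _)]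
      exact max_lt (by linarith) hε
  rw [intervalIntegral.integral_zero] at hdct
  filter_upwards [(tendsto_order.1 hdct).2 1 one_pos, hev] with T hT hT2
  have hT16 : 16 ≤ T := by linarith
  have hn := nT_pos (show 10 ≤ T by linarith)
  have hnT : NT T = nT T := rfl
  have h3 := (hm T hT2.1).2.2 a ha0 hT2.2.1
  have hL := one_lt_log (show 3 ≤ T by linarith)
  have hTL : 0 < T * Real.log T := by positivity
  have hii : ∀ x y : ℝ, IntervalIntegrable (fun u => Pc u * NT T - (nstar T u : ℝ)) volume x y :=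
    fun x y => ((Pc_cont.intervalIntegrable _ _).mul_const _).sub (nstar_ii (by linarith) _ _)
  have hgi : IntervalIntegrable (fun u =>
      max (Pc u - (nstar T u : ℝ) / nT T - C * Real.exp (-(c * u))) 0) volume A a := by
    rw [intervalIntegrable_iff]
    have : IsFiniteMeasure (volume.restrict (Set.uIoc A a)) := by
      constructor
      rw [Measure.restrict_apply_univ]
      exact measure_Ioc_lt_top
    refine Integrable.of_bound (hgm T (by linarith)).aestronglyMeasurable a ?_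
    rw [ae_restrict_iff' measurableSet_uIoc]
    exact Filter.Eventually.of_forall fun u hu => hgb T (by linarith) u hu
  have hei : IntervalIntegrable (fun u => C * Real.exp (-(c * u))) volume A a :=
    (by fun_prop : Continuous fun u => C * Real.exp (-(c * u))).intervalIntegrable _ _
  have h4 : ∫ u in (0 : ℝ)..a, (Pc u * NT T - (nstar T u : ℝ)) ≤ (A ^ 2 + 1 + C / c) * nT T := by
    rw [← intervalIntegral.integral_add_adjacent_intervals (hii 0 A) (hii A a)]
    have i1 : ∫ u in (0 : ℝ)..A, (Pc u * NT T - (nstar T u : ℝ)) ≤ A ^ 2 * nT T := by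
      calc ∫ u in (0 : ℝ)..A, (Pc u * NT T - (nstar T u : ℝ)) ≤ ∫ u in (0 : ℝ)..A, A * nT T := by
            refine intervalIntegral.integral_mono_on hA.le (hii 0 A) (by simp) fun u hu => ?_
            have h5 : Pc u ≤ A := (Pc_le hu.1).trans hu.2
            have h6 : (0 : ℝ) ≤ (nstar T u : ℝ) := Nat.cast_nonneg _
            rw [hnT]
            nlinarith
        _ = A ^ 2 * nT T := by
            rw [intervalIntegral.integral_const, smul_eq_mul]
            ring
    have i2 : ∫ u in A..a, (Pc u * NT T - (nstar T u : ℝ)) ≤ nT T * (1 + C / c) := by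
      calc ∫ u in A..a, (Pc u * NT T - (nstar T u : ℝ)) ≤ ∫ u in A..a, nT T *
            (max (Pc u - (nstar T u : ℝ) / nT T - C * Real.exp (-(c * u))) 0 +
              C * Real.exp (-(c * u))) := by
            refine intervalIntegral.integral_mono_on hAa (hii A a) ((hgi.add hei).const_mul _)
              fun u hu => ?_
            have h5 := le_max_left (Pc u - (nstar T u : ℝ) / nT T - C * Real.exp (-(c * u))) 0
            have h6 : Pc u * NT T - (nstar T u : ℝ) = nT T * (Pc u - (nstar T u : ℝ) / nT T) := by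
              rw [hnT]
              field_simp
            rw [h6]
            refine mul_le_mul_of_nonneg_left ?_ hn.le
            linarith
        _ = nT T * ((∫ u in A..a,
            max (Pc u - (nstar T u : ℝ) / nT T - C * Real.exp (-(c * u))) 0) +
              ∫ u in A..a, C * Real.exp (-(c * u))) := by
            rw [intervalIntegral.integral_const_mul, intervalIntegral.integral_add hgi hei]
        _ ≤ nT T * (1 + C / c) := by
            refine mul_le_mul_of_nonneg_left ?_ hn.le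
            have := int_exp_le (a := a) hc hC hA.le
            linarith
    linarith
  have h5 : nT T ≤ T * Real.log T := by
    unfold nT
    apply div_le_self (by positivity)
    linarith
  have h6 : C1 * (T * Real.log T + a ^ 2 * T) ≤ 2 * C1 * (T * Real.log T) := by
    have : a ^ 2 * T ≤ Real.log T * T := by
      apply mul_le_mul_of_nonneg_right hT2.2.2.1 (by linarith)
    nlinarith
  have h7 : a / 2 * (nbad T : ℝ) ≤ M * (T * Real.log T) := by
    have h8 : (A ^ 2 + 1 + C / c) * nT T ≤ (A ^ 2 + 1 + C / c) * (T * Real.log T) := by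
      gcongr
    rw [hM]
    linarith
  have h8 : (nbad T : ℝ) ≤ η / 2 * (T * Real.log T) := by
    have h10 : M * (T * Real.log T) ≤ a / 2 * (η / 2 * (T * Real.log T)) := by
      have h11 : M ≤ a / 2 * (η / 2) := by
        rw [div_le_iff₀ hη] at haM
        linarith
      calc M * (T * Real.log T) ≤ (a / 2 * (η / 2)) * (T * Real.log T) := by gcongr
        _ = _ := by ring
    exact le_of_mul_le_mul_left (h7.trans h10) (by positivity)
  have h12 := NF_le T (by linarith)
  rw [← hK] at h12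
  have h13 : K ≤ η / 2 * (T * Real.log T) := by
    have := hT2.2.2.2
    rw [div_le_iff₀ hη] at this
    have h14 : T * 1 ≤ T * Real.log T := by gcongr
    nlinarith
  linarith

lemma gp_Pc (a : ℝ) : gp a = Pc a := rfl

lemma AG_Pc {a : ℝ} (ha : 0 ≤ a) : AG a = 1 + 2 * Pc a := by
  unfold AG
  rw [if_neg (by linarith), gp_Pc]

/-- rigidity for the counting functions -/
theorem rig (hoff : ∀ η : ℝ, 0 < η → ∀ᶠ T : ℝ in atTop, NF T ≤ η * (T * Real.log T))
    {s C c a0 : ℝ} (hs : s = 1 ∨ s = -1) (hC : 0 ≤ C) (hc : 0 < c) (ha0 : 0 < a0)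
    (hyp : ∀ a, a0 ≤ a → ∀ ε, 0 < ε → ∀ᶠ T : ℝ in atTop,
      -(C * Real.exp (-(c * a))) - ε ≤ s * (Ac T a - AG a)) :
    ∀ x, Tendsto (fun T => Ac T x) atTop (𝓝 (AG x)) := by
  obtain ⟨C0, T0, hT0, hb⟩ := Ac_bound
  obtain ⟨κ, hκ, hm⟩ := mont hoff
  exact rigid_anch hκ (fun T _ => Ac_mono T) Ac_neg hb (fun ε hε => Ac_diag hε) hm le_rfl hs hC hc
    ha0 hyp

lemma nstar_of_Ac (h : ∀ x, Tendsto (fun T => Ac T x) atTop (𝓝 (AG x))) {a : ℝ} (ha : 0 ≤ a) :
    Tendsto (fun T => (nstar T a : ℝ) / nT T) atTop (𝓝 (Pc a)) := by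
  rw [Metric.tendsto_nhds]
  intro ε hε
  have h1 := Metric.tendsto_nhds.1 (h a) (ε / 2) (by positivity)
  have h2 := Metric.tendsto_nhds.1 (h 0) (ε / 2) (by positivity)
  filter_upwards [h1, h2, nstar_close ha (show 0 < ε / 2 by positivity)] with T h1 h2 h3
  rw [Real.dist_eq, AG_Pc ha] at h1
  rw [Real.dist_eq, AG_Pc le_rfl] at h2
  have h4 : Pc 0 = 0 := by
    unfold Pc
    simp
  rw [h4] at h2
  rw [Real.dist_eq]
  rw [abs_lt] at h1 h2 ⊢
  rw [abs_le] at h3
  constructor <;> linarith [h1.1, h1.2, h2.1, h2.2, h3.1, h3.2]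

lemma neq_of_Ac (h : ∀ x, Tendsto (fun T => Ac T x) atTop (𝓝 (AG x))) :
    Tendsto (fun T => (neq T : ℝ) / nT T) atTop (𝓝 1) := by
  rw [Metric.tendsto_nhds]
  intro ε hε
  have h2 := Metric.tendsto_nhds.1 (h 0) (ε / 2) (by positivity)
  filter_upwards [h2, neq_close (show 0 < ε / 4 by positivity)] with T h2 h3
  rw [Real.dist_eq, AG_Pc le_rfl] at h2
  have h4 : Pc 0 = 0 := by
    unfold Pc
    simp
  rw [h4] at h2
  rw [Real.dist_eq]
  rw [abs_lt] at h2 ⊢
  rw [abs_le] at h3
  constructor <;> linarith [h2.1, h2.2, h3.1, h3.2]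

/-- the lower bound gives everything -/
theorem lower_all {A C c : ℝ} (hA : 0 < A) (hC : 0 ≤ C) (hc : 0 < c)
    (h : ∀ a, A ≤ a → ∀ ε, 0 < ε → ∀ᶠ T : ℝ in atTop,
      Pc a - C * Real.exp (-(c * a)) - ε ≤ (nstar T a : ℝ) / nT T) :
    ∀ x, Tendsto (fun T => Ac T x) atTop (𝓝 (AG x)) := by
  refine rig (off_of_lb hA hC hc h) (Or.inl rfl) (C := 2 * C) (by positivity) hc hA ?_
  intro a ha ε hε
  filter_upwards [h a ha (ε / 8) (by positivity), Ac_diag (show 0 < ε / 4 by positivity),
    nstar_close (show 0 ≤ a by linarith) (show 0 < ε / 4 by positivity)] with T h1 h2 h3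
  rw [AG_Pc (by linarith), one_mul]
  rw [abs_le] at h3
  linarith [h3.1, h3.2]

/-- the upper bound gives everything -/
theorem upper_all {A C c : ℝ} (hA : 0 < A) (hC : 0 ≤ C) (hc : 0 < c)
    (hoff : ∀ η : ℝ, 0 < η → ∀ᶠ T : ℝ in atTop, NF T ≤ η * (T * Real.log T))
    (h : ∀ a, A ≤ a → ∀ ε, 0 < ε → ∀ᶠ T : ℝ in atTop,
      ((neq T : ℝ) + 2 * (nstar T a : ℝ)) / nT T ≤ 1 + 2 * Pc a + C * Real.exp (-(c * a)) + ε) :
    ∀ x, Tendsto (fun T => Ac T x) atTop (𝓝 (AG x)) := by
  refine rig hoff (Or.inr rfl) (C := C) (by positivity) hc hA ?_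
  intro a ha ε hε
  filter_upwards [h a ha (ε / 2) (by positivity), neq_close (show 0 < ε / 4 by positivity),
    nstar_close (show 0 ≤ a by linarith) (show 0 < ε / 4 by positivity)] with T h1 h2 h3
  rw [AG_Pc (by linarith)]
  rw [abs_le] at h2 h3
  rw [add_div, mul_div_assoc] at h1
  linarith [h2.1, h2.2, h3.1, h3.2]

end Pool.Agent.Y744.UNC
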